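import Mathlib

open Filter Topology

namespace Pool.Agent.Results.MP_14365a_gt.BetaN

/-- The functions that are continuous on some dense open subset of `X`. -/
def T1 (X : Type) [TopologicalSpace X] : Set (X → ℝ) :=
  {f | ∃ U : Set X, IsOpen U ∧ Dense U ∧ Continuous (fun x : U => f x)}

/-- The functions that are continuous on some dense cozero subset of `X`. -/
def T2 (X : Type) [TopologicalSpace X] : Set (X → ℝ) :=
  {f | ∃ h : C(X, ℝ), Dense {x | h x ≠ 0} ∧ Continuous (fun x : {x | h x ≠ 0} => f x)}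

/-- Every closed subset of `X` is the zero set of a continuous real function. -/
def PerfectlyNormal (X : Type) [TopologicalSpace X] : Prop :=
  ∀ F : Set X, IsClosed F → ∃ h : C(X, ℝ), F = {x | h x = 0}

theorem isOpen_pure (n : ℕ) : IsOpen ({pure n} : Set (Ultrafilter ℕ)) := by
  have h : ({pure n} : Set (Ultrafilter ℕ)) = {u | {n} ∈ u} := by
    ext u
    constructor
    · intro hu
      have hu' : u = pure n := hu
      subst hu'
      exact Set.mem_singleton n
    · intro hu
      have h1 : (u : Filter ℕ) ≤ (pure n : Ultrafilter ℕ) := le_pure_iff.mpr hu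
      exact Ultrafilter.coe_le_coe.mp h1
  rw [h]
  exact ultrafilter_isOpen_basic _

theorem exists_h : ∃ h : C(Ultrafilter ℕ, ℝ), {x | h x ≠ 0} = Set.range (pure : ℕ → Ultrafilter ℕ) := by
  let g : ℕ → Set.Icc (0 : ℝ) 1 := fun n => ⟨1 / ((n : ℝ) + 1), by
    constructor
    · positivity
    · rw [div_le_one (by positivity)]
      have : (0 : ℝ) ≤ n := Nat.cast_nonneg n
      linarith⟩
  refine ⟨⟨fun u => ((Ultrafilter.extend g u : Set.Icc (0 : ℝ) 1) : ℝ),
    continuous_subtype_val.comp (continuous_ultrafilter_extend g)⟩, ?_⟩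
  ext u
  change ((Ultrafilter.extend g u : Set.Icc (0 : ℝ) 1) : ℝ) ≠ 0 ↔ ∃ n, pure n = u
  constructor
  · intro hu
    rcases u.le_cofinite_or_eq_pure with h | ⟨a, h⟩
    · exfalso
      apply hu
      have h1 : Ultrafilter.extend g u = ⟨0, by simp⟩ := by
        rw [ultrafilter_extend_eq_iff]
        change Tendsto g u _
        rw [tendsto_subtype_rng]
        refine Tendsto.mono_left ?_ (h.trans_eq Nat.cofinite_eq_atTop)
        exact tendsto_one_div_add_atTop_nhds_zero_nat
      rw [h1]
    · exact ⟨a, h.symm⟩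
  · rintro ⟨n, rfl⟩
    have h1 : Ultrafilter.extend g (pure n) = g n := congrFun (ultrafilter_extend_extends g) n
    rw [h1]
    change 1 / ((n : ℝ) + 1) ≠ 0
    positivity

theorem T_eq : T1 (Ultrafilter ℕ) = T2 (Ultrafilter ℕ) := by
  apply Set.Subset.antisymm
  · intro f _
    obtain ⟨h, hh⟩ := exists_h
    refine ⟨h, ?_, ?_⟩
    · rw [hh]
      exact denseRange_pure
    · rw [continuous_iff_continuousAt]
      rintro ⟨u, hu⟩
      rw [hh] at hu
      obtain ⟨n, rfl⟩ := hu
      have h1 : ContinuousAt f (pure n) := by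
        rw [ContinuousAt, (isOpen_singleton_iff_nhds_eq_pure _).mp (isOpen_pure n)]
        exact tendsto_pure_nhds f _
      exact ContinuousAt.comp (f := fun x : {x | h x ≠ 0} => (x : Ultrafilter ℕ)) h1
        continuousAt_subtype_val
  · rintro f ⟨h, h1, h2⟩
    exact ⟨_, isOpen_ne_fun h.continuous continuous_const, h1, h2⟩

theorem not_perf : ¬ PerfectlyNormal (Ultrafilter ℕ) := by
  intro H
  obtain ⟨h, hh⟩ := H {hyperfilter ℕ} isClosed_singleton
  have hp : h (hyperfilter ℕ) = 0 := by
    have : hyperfilter ℕ ∈ ({hyperfilter ℕ} : Set (Ultrafilter ℕ)) := rfl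
    rw [hh] at this
    exact this
  have hlim : ∀ u : Ultrafilter ℕ, Tendsto (fun n => h (pure n)) u (𝓝 (h u)) := fun u =>
    (h.continuous.tendsto u).comp (Ultrafilter.tendsto_pure_self u)
  have hfreq : ∀ k : ℕ, ∃ᶠ n in atTop, |h (pure n)| < 1 / ((k : ℝ) + 1) := by
    intro k
    have h1 : ∀ᶠ n in (hyperfilter ℕ : Filter ℕ), |h (pure n)| < 1 / ((k : ℝ) + 1) := by
      have h2 := hlim (hyperfilter ℕ)
      rw [hp] at h2
      have h3 := (tendsto_zero_iff_abs_tendsto_zero _).mp h2
      exact h3.eventually (gt_mem_nhds (by positivity))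
    exact (h1.frequently).filter_mono (Nat.hyperfilter_le_atTop)
  obtain ⟨φ, hφ, hφ2⟩ := extraction_forall_of_frequently hfreq
  have hq : ∀ i : ℕ, Ultrafilter.map (fun k => φ (2 * k + i)) (hyperfilter ℕ) = hyperfilter ℕ := by
    intro i
    have h1 : Tendsto (fun k : ℕ => h (pure (φ (2 * k + i)))) (hyperfilter ℕ : Filter ℕ) (𝓝 0) := by
      rw [tendsto_zero_iff_abs_tendsto_zero]
      refine squeeze_zero' (Eventually.of_forall fun k => abs_nonneg _)
        (Eventually.of_forall fun k => (hφ2 (2 * k + i)).le) ?_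
      refine Tendsto.mono_left ?_ Nat.hyperfilter_le_atTop
      have h2 : Tendsto (fun k : ℕ => 2 * k + i) atTop atTop :=
        tendsto_atTop_mono (fun k => by simp only [id]; omega) tendsto_id
      exact tendsto_one_div_add_atTop_nhds_zero_nat.comp h2
    have h2 : Tendsto (fun k : ℕ => h (pure (φ (2 * k + i)))) (hyperfilter ℕ : Filter ℕ)
        (𝓝 (h (Ultrafilter.map (fun k => φ (2 * k + i)) (hyperfilter ℕ)))) :=
      hlim (Ultrafilter.map (fun k => φ (2 * k + i)) (hyperfilter ℕ))
    have h3 := tendsto_nhds_unique h2 h1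
    have h4 : Ultrafilter.map (fun k => φ (2 * k + i)) (hyperfilter ℕ) ∈
        ({hyperfilter ℕ} : Set (Ultrafilter ℕ)) := by
      rw [hh]
      exact h3
    exact h4
  have h0 : Set.range (fun k => φ (2 * k + 0)) ∈ hyperfilter ℕ := by
    rw [← hq 0]
    exact Ultrafilter.mem_map.mpr (Filter.univ_mem' fun k => ⟨k, rfl⟩)
  have h1 : Set.range (fun k => φ (2 * k + 1)) ∈ hyperfilter ℕ := by
    rw [← hq 1]
    exact Ultrafilter.mem_map.mpr (Filter.univ_mem' fun k => ⟨k, rfl⟩)
  have h2 := (hyperfilter ℕ).nonempty_of_mem (Filter.inter_mem h0 h1)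
  obtain ⟨_, ⟨j, hj⟩, ⟨k, hk⟩⟩ := h2
  have h3 : 2 * j + 0 = 2 * k + 1 := hφ.injective (hj.trans hk.symm)
  omega

/-- There is a compact Hausdorff space `X` (hence normal and completely regular; namely `βℕ`) which
is not perfectly normal, but for which `T'(X) = T''(X)`. -/
theorem result : ∃ (X : Type) (_ : TopologicalSpace X), CompactSpace X ∧ T2Space X ∧
    ¬ PerfectlyNormal X ∧ T1 X = T2 X :=
  ⟨Ultrafilter ℕ, inferInstance, inferInstance, inferInstance, not_perf, T_eq⟩

end Pool.Agent.Results.MP_14365a_gt.BetaN
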